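import Mathlib
import Pool.Agent.Helper78.UDDefs
import Pool.Agent.Helper78.UDMain

/-!
# `MP_f735f2_an`, Q1: universal disposition does not imply homogeneity

For every infinite cardinal `κ` there is a Banach space of universal disposition for `𝔇_{<κ}` that is
not homogeneous with respect to `𝔇_{<κ}`.
-/

set_option autoImplicit false

universe u

open Cardinal

namespace Pool.Agent.Results.MP_f735f2_an.UDNotHomogeneous

open Pool.Agent.Helper78.UD

/-- For every infinite cardinal `κ` there is a real Banach space `X` of universal disposition for
`𝔇_{<κ}` that is not homogeneous with respect to `𝔇_{<κ}`. -/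
theorem result (κ : Cardinal.{u}) (hκ : ℵ₀ ≤ κ) :
    ∃ (X : Type u) (_ : NormedAddCommGroup X) (_ : NormedSpace ℝ X) (_ : CompleteSpace X),
      UniversalDisposition κ X ∧ ¬ Homogeneous κ X :=
  main κ hκ

end Pool.Agent.Results.MP_f735f2_an.UDNotHomogeneous
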